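import Pool.Agent.Helper40.GO.DefsD

/-!
# Project GO (MP_6af536_nt), packet GO-TCH: a function touching `F` from above
-/

set_option autoImplicit false

open Filter Topology

noncomputable section

namespace Pool.Agent.Helper59.GO

open Pool.Agent.Helper40.GO

/-- a positive lower bound of finitely many positive numbers -/
theorem exists_pos_le {n : ℕ} (η' : Fin n → ℝ) (h : ∀ i, 0 < η' i) : ∃ η : ℝ, 0 < η ∧ ∀ i, η ≤ η' i := by
  rcases isEmpty_or_nonempty (Fin n) with h' | h'
  · exact ⟨1, one_pos, fun i => isEmptyElim i⟩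
  · obtain ⟨i₀, hi₀⟩ := Finite.exists_min η'
    exact ⟨η' i₀, h i₀, hi₀⟩

/-- the distance of `σ` to the other elements of `M` -/
theorem exists_eps (M : Finset ℝ) (σ : ℝ) : ∃ ε : ℝ, 0 < ε ∧ ∀ l ∈ M, l ≠ σ → ε ≤ |l - σ| := by
  rcases (M.erase σ).eq_empty_or_nonempty with h | h
  · refine ⟨1, one_pos, fun l hl hne => ?_⟩
    have : l ∈ M.erase σ := Finset.mem_erase.2 ⟨hne, hl⟩
    rw [h] at this
    exact absurd this (Finset.notMem_empty l)
  · obtain ⟨l₀, hl₀, hmin⟩ := Finset.exists_min_image (M.erase σ) (fun l => |l - σ|) h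
    refine ⟨|l₀ - σ|, abs_pos.2 (sub_ne_zero.2 (Finset.mem_erase.1 hl₀).1), fun l hl hne => ?_⟩
    exact hmin l (Finset.mem_erase.2 ⟨hne, hl⟩)

section core

variable {n : ℕ} {F : (Fin n → ℝ) → ℝ} {M : Finset ℝ} {L : ℝ}

theorem upd_pos {y : Fin n → ℝ} (hy : ∀ j, 0 < y j) (i : Fin n) {r : ℝ} (hr : 0 < r) :
    ∀ j, 0 < Function.update y i r j := by
  intro j
  by_cases h : j = i
  · subst h
    rw [Function.update_self]
    exact hr
  · rw [Function.update_of_ne h]
    exact hy j

theorem lip_one (h : BlowData n F M L) {x : Fin n → ℝ} (hx : ∀ j, 0 < x j) (i : Fin n) {r : ℝ}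
    (hr : 0 < r) : |F (Function.update x i r) - F x| ≤ L * |r - x i| := by
  refine (h.lip _ _ (upd_pos hx i hr) hx).trans (mul_le_mul_of_nonneg_left ?_ h.L0)
  refine (Finset.sum_eq_single i ?_ ?_).le.trans ?_
  · intro j _ hj
    rw [Function.update_of_ne hj, sub_self, abs_zero]
  · intro hi
    exact absurd (Finset.mem_univ i) hi
  · rw [Function.update_self]

theorem lip_two (h : BlowData n F M L) {x y : Fin n → ℝ} (hx : ∀ j, 0 < x j) (hy : ∀ j, 0 < y j)
    (i : Fin n) {r η : ℝ} (hr : 0 < r) (hη : 0 ≤ η) (hxy : ∀ j, |y j - x j| ≤ η) :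
    |F (Function.update y i r) - F (Function.update x i r)| ≤ L * (n * η) := by
  refine (h.lip _ _ (upd_pos hy i hr) (upd_pos hx i hr)).trans (mul_le_mul_of_nonneg_left ?_ h.L0)
  refine (Finset.sum_le_card_nsmul Finset.univ _ η ?_).trans ?_
  · intro j _
    by_cases hj : j = i
    · subst hj
      rw [Function.update_self, Function.update_self, sub_self, abs_zero]
      exact hη
    · rw [Function.update_of_ne hj, Function.update_of_ne hj]
      exact hxy j
  · rw [Finset.card_univ, Fintype.card_fin, nsmul_eq_mul]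

/-- one coordinate -/
theorem core (h : BlowData n F M L) (x : Fin n → ℝ) (hx : ∀ j, 0 < x j) (i : Fin n) (q : ℝ → ℝ)
    (σ : ℝ) (hq : HasDerivAt q σ (x i))
    (hF : ∀ᶠ r in 𝓝 (x i), F (Function.update x i r) ≤ F x + (q r - q (x i))) :
    σ ∈ M ∧ ∃ η : ℝ, 0 < η ∧ ∀ y : Fin n → ℝ, (∀ j, |y j - x j| < η) →
      F y = F (Function.update y i (x i)) + σ * (y i - x i) := by
  obtain ⟨ε, hε, hεM⟩ := exists_eps M σ
  have h1 : ∀ᶠ r in 𝓝 (x i),
      F (Function.update x i r) - F x ≤ σ * (r - x i) + ε / 2 * |r - x i| := by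
    have h2 := (hasDerivAt_iff_isLittleO.1 hq).def (half_pos hε)
    filter_upwards [hF, h2] with r hr hr2
    rw [Real.norm_eq_abs, Real.norm_eq_abs, smul_eq_mul] at hr2
    have h3 := (abs_le.1 hr2).2
    have h4 : (r - x i) * σ = σ * (r - x i) := mul_comm _ _
    linarith
  obtain ⟨ρ₀, hρ₀, hρ⟩ := Metric.eventually_nhds_iff.1 h1
  obtain ⟨ρ, hρpos, hρle, hρx⟩ : ∃ ρ : ℝ, 0 < ρ ∧ ρ < ρ₀ ∧ ρ < x i := by
    have hm : 0 < min ρ₀ (x i) := lt_min hρ₀ (hx i)
    refine ⟨min ρ₀ (x i) / 2, half_pos hm, ?_, ?_⟩
    · exact (half_lt_self hm).trans_le (min_le_left _ _)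
    · exact (half_lt_self hm).trans_le (min_le_right _ _)
  have hr0 : 0 < x i - ρ := by linarith
  have hr1 : 0 < x i + ρ := by linarith [hx i]
  have H0 : F (Function.update x i (x i - ρ)) - F x ≤ -(σ * ρ) + ε / 2 * ρ := by
    have h2 := hρ (y := x i - ρ) (by
      rw [Real.dist_eq, sub_sub_cancel_left, abs_neg, abs_of_pos hρpos]
      exact hρle)
    rw [sub_sub_cancel_left, abs_neg, abs_of_pos hρpos] at h2
    linarith
  have H1 : F (Function.update x i (x i + ρ)) - F x ≤ σ * ρ + ε / 2 * ρ := by
    have h2 := hρ (y := x i + ρ) (by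
      rw [Real.dist_eq, add_sub_cancel_left, abs_of_pos hρpos]
      exact hρle)
    rw [add_sub_cancel_left, abs_of_pos hρpos] at h2
    linarith
  have hερ : 0 < ε * ρ := mul_pos hε hρpos
  refine ⟨?_, ?_⟩
  · by_contra hσ
    have hgap : Gap M (σ - ε) (σ + ε) := by
      refine ⟨by linarith, fun l hl => ?_⟩
      have h2 := hεM l hl (by rintro rfl; exact hσ hl)
      rcases le_abs.1 h2 with h3 | h3
      · right; linarith
      · left; linarith
    have h2 := h.gap _ _ hgap i (Function.update x i (x i - ρ)) (x i) (x i + ρ)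
      (upd_pos hx i hr0) (by rw [Function.update_self]; linarith) (by linarith)
    rw [Function.update_idem, Function.update_idem, Function.update_self,
      Function.update_eq_self] at h2
    have h3 := h2 (by nlinarith)
    nlinarith
  · have hgap1 : Gap M (σ - ε) σ := by
      refine ⟨by linarith, fun l hl => ?_⟩
      by_cases hl2 : l = σ
      · right; exact hl2.ge
      rcases le_abs.1 (hεM l hl hl2) with h3 | h3
      · right; linarith
      · left; linarith
    have hgap2 : Gap M σ (σ + ε) := by
      refine ⟨by linarith, fun l hl => ?_⟩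
      by_cases hl2 : l = σ
      · left; exact hl2.le
      rcases le_abs.1 (hεM l hl hl2) with h3 | h3
      · right; linarith
      · left; linarith
    obtain ⟨η₁, hη₁, hη₁x⟩ := exists_pos_le x hx
    have hK : 0 < L + |σ - ε| + |σ + ε| + 2 * (L * n) + 1 := by
      have := h.L0
      positivity
    obtain ⟨η, hη, hη2, hη3, hη4⟩ : ∃ η : ℝ, 0 < η ∧ η ≤ η₁ ∧ η ≤ ρ ∧
        (L + |σ - ε| + |σ + ε| + 2 * (L * n) + 1) * η ≤ ε / 2 * ρ := by
      refine ⟨min (min η₁ ρ) (ε / 2 * ρ / (L + |σ - ε| + |σ + ε| + 2 * (L * n) + 1)), ?_, ?_, ?_, ?_⟩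
      · exact lt_min (lt_min hη₁ hρpos) (by positivity)
      · exact (min_le_left _ _).trans (min_le_left _ _)
      · exact (min_le_left _ _).trans (min_le_right _ _)
      · rw [← le_div_iff₀' hK]
        exact min_le_right _ _
    refine ⟨η, hη, fun y hy => ?_⟩
    have hy0 : ∀ j, 0 < y j := by
      intro j
      have h2 := (abs_lt.1 (hy j)).1
      have h3 := hη₁x j
      linarith
    have hnear : ∀ r, 0 < r →
        |F (Function.update y i r) - F (Function.update x i r)| ≤ L * (n * η) := fun r hr =>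
      lip_two h hx hy0 i hr hη.le fun j => (hy j).le
    have hbig : ∀ t : ℝ, |t| < η → (|σ - ε| * η ≥ |(σ - ε) * t|) ∧ (|σ + ε| * η ≥ |(σ + ε) * t|) := by
      intro t ht
      rw [abs_mul, abs_mul]
      exact ⟨mul_le_mul_of_nonneg_left ht.le (abs_nonneg _),
        mul_le_mul_of_nonneg_left ht.le (abs_nonneg _)⟩
    have habs1 : 0 ≤ |σ - ε| * η := by positivity
    have habs2 : 0 ≤ |σ + ε| * η := by positivity
    have hLη : 0 ≤ L * η := mul_nonneg h.L0 hη.le
    have key : ∀ a b : ℝ, |a - x i| < η → |b - x i| < η → a < b →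
        F (Function.update y i b) - F (Function.update y i a) = σ * (b - a) := by
      intro a b ha hb hab
      have ha1 := abs_lt.1 ha
      have hb1 := abs_lt.1 hb
      have ha0 : 0 < a := by linarith
      have hb0 : 0 < b := by linarith
      apply le_antisymm
      · by_contra hcon
        push Not at hcon
        have h2 := h.gap _ _ hgap2 i (Function.update y i a) b (x i + ρ)
          (upd_pos hy0 i ha0) (by rw [Function.update_self]; exact hab) (by linarith)
        rw [Function.update_idem, Function.update_idem, Function.update_self] at h2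
        have h3 := h2 hcon
        have h4 := abs_le.1 (hnear _ hr1)
        have h5 := abs_le.1 (hnear _ hb0)
        have h6 := abs_le.1 (lip_one h hx i hb0)
        have h7 : L * |b - x i| ≤ L * η := mul_le_mul_of_nonneg_left hb.le h.L0
        have h8 := abs_le.1 (hbig (b - x i) hb).2
        nlinarith
      · have h2 := h.gap _ _ hgap1 i (Function.update y i (x i - ρ)) a b
          (upd_pos hy0 i hr0) (by rw [Function.update_self]; linarith) hab
        rw [Function.update_idem, Function.update_idem, Function.update_self] at h2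
        apply h2
        have h4 := abs_le.1 (hnear _ hr0)
        have h5 := abs_le.1 (hnear _ ha0)
        have h6 := abs_le.1 (lip_one h hx i ha0)
        have h7 : L * |a - x i| ≤ L * η := mul_le_mul_of_nonneg_left ha.le h.L0
        have h8 := abs_le.1 (hbig (a - x i) ha).1
        nlinarith
    have hxi : |x i - x i| < η := by rw [sub_self, abs_zero]; exact hη
    rcases lt_trichotomy (y i) (x i) with hlt | heq | hgt
    · have h2 := key (y i) (x i) (hy i) hxi hlt
      rw [Function.update_eq_self] at h2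
      linarith
    · rw [← heq, Function.update_eq_self]
      ring
    · have h2 := key (x i) (y i) hxi (hy i) hgt
      rw [Function.update_eq_self] at h2
      linarith

end core

/-- TCH -/
theorem tch : Pool.Agent.Helper40.GO.S_TCH := by
  intro n F M L h x q σ hx hq hF
  have hc := fun i => core h x hx i (q i) (σ i) (hq i) (hF i)
  refine ⟨fun i => (hc i).1, ?_⟩
  choose η' hη' hy' using fun i => (hc i).2
  obtain ⟨η, hη, hηle⟩ := exists_pos_le η' hη'
  filter_upwards [Metric.ball_mem_nhds x hη] with y hy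
  have hyx : ∀ i, |y i - x i| < η := by
    intro i
    have := (dist_pi_lt_iff hη).1 (Metric.mem_ball.1 hy) i
    rwa [Real.dist_eq] at this
  have key : ∀ S : Finset (Fin n), F y = F (S.piecewise x y) + ∑ i ∈ S, σ i * (y i - x i) := by
    intro S
    induction S using Finset.induction_on with
    | empty => simp
    | insert i S hi ih =>
      rw [ih, Finset.sum_insert hi, Finset.piecewise_insert]
      have h1 := hy' i (S.piecewise x y) (fun j => by
        by_cases hj : j ∈ S
        · rw [Finset.piecewise_eq_of_mem _ _ _ hj, sub_self, abs_zero]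
          exact hη' i
        · rw [Finset.piecewise_eq_of_notMem _ _ _ hj]
          exact (hyx j).trans_le (hηle i))
      rw [h1, Finset.piecewise_eq_of_notMem _ _ _ hi]
      ring
  have h1 := key Finset.univ
  rwa [Finset.piecewise_univ] at h1

end Pool.Agent.Helper59.GO
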